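import Pool.Agent.K9h90.CN.L6
import Pool.Agent.K9h90.CN.L7

/-!
# Montgomery's bound for cubic Weyl sums: every modulus, every displacement, all but few numerators
-/

set_option autoImplicit false

open Finset

namespace Pool.Agent.Results.MP_3b0be2_nt.CubicNumerators

/-- Let `0 ≤ η ≤ 1/2` and `ε > 0`. There is `C` such that for all `q ≥ 2` (cube-free if `η > 1/3`), all real `β` with
`|β| ≤ 1/(2q)` (in particular for `|β| ≤ 1/q²`) and all `M ≥ q` there is a set `E` of at most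
`C q^(4η+1) (|β| + 1/M) / M^(3ε)` integers such that for every numerator `1 ≤ a < q` coprime to `q` outside `E` the inequality
of `H_3(η)` holds, with constant `1`, at the point `a/q + β` for ALL `N ≥ M` and ALL real `ξ`. -/
theorem result : ∀ η : ℝ, 0 ≤ η → η ≤ 1 / 2 → ∀ ε : ℝ, 0 < ε → ∃ C : ℝ, 0 < C ∧
    ∀ q : ℕ, 2 ≤ q → (∀ p : ℕ, p.Prime → p ^ 3 ∣ q → η ≤ 1 / 3) →
      ∀ β : ℝ, |β| ≤ 1 / (2 * (q : ℝ)) → ∀ M : ℕ, q ≤ M →
      ∃ E : Finset ℕ, (E.card : ℝ) ≤ C * ((q : ℝ) ^ (4 * η + 1) * (|β| + 1 / (M : ℝ))) / (M : ℝ) ^ (3 * ε) ∧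
        ∀ a : ℕ, 1 ≤ a → a < q → Nat.Coprime a q → a ∉ E → ∀ N : ℕ, M ≤ N → ∀ ξ : ℝ,
          ‖∑ n ∈ Finset.Icc 1 N,
              Complex.exp (2 * (Real.pi : ℂ) * Complex.I *
                (((((a : ℝ) / (q : ℝ) + β) * (n : ℝ) ^ 3 + ξ * (n : ℝ)) : ℝ) : ℂ))‖
            ≤ (N : ℝ) ^ (1 + ε) * (1 / (q : ℝ) + 1 / (N : ℝ) + (q : ℝ) / (N : ℝ) ^ 3) ^ η := by
  classical
  intro η hη hη2 ε hε
  obtain ⟨C, hC, hmain⟩ := Pool.Agent.K9h90.CNF.uniform η hη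
    (fun q => η ≤ 1 / 3 ∨ (η ≤ 1 / 2 ∧ ∀ p : ℕ, p.Prime → ¬ p ^ 3 ∣ q))
    (by
      intro ε' hε'
      obtain ⟨C1, hC1, h1⟩ := Pool.Agent.K9h90.CN.hu Pool.Agent.K9h90.CN.pp ε' hε'
      obtain ⟨C2, hC2, h2⟩ := Pool.Agent.K9h90.CN.CF.cf ε' hε'
      refine ⟨C1 + C2, by linarith, fun q hq hP a b hab => ?_⟩
      have hqR : (1 : ℝ) ≤ q := by exact_mod_cast hq
      rcases hP with h | ⟨h, hcf⟩
      · refine (h1 q hq a b hab).trans ?_
        have h3 : (q : ℝ) ^ (2 / 3 + ε' : ℝ) ≤ (q : ℝ) ^ (1 - η + ε') :=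
          Real.rpow_le_rpow_of_exponent_le hqR (by linarith)
        have h4 : (0 : ℝ) ≤ (q : ℝ) ^ (1 - η + ε') := by positivity
        have h5 : C1 * (q : ℝ) ^ (2 / 3 + ε' : ℝ) ≤ C1 * (q : ℝ) ^ (1 - η + ε') :=
          mul_le_mul_of_nonneg_left h3 (by linarith)
        have h6 : 0 ≤ C2 * (q : ℝ) ^ (1 - η + ε') := by positivity
        linarith
      · refine (h2 q hq hcf a b hab).trans ?_
        have h3 : (q : ℝ) ^ (1 / 2 + ε' : ℝ) ≤ (q : ℝ) ^ (1 - η + ε') :=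
          Real.rpow_le_rpow_of_exponent_le hqR (by linarith)
        have h4 : (0 : ℝ) ≤ (q : ℝ) ^ (1 - η + ε') := by positivity
        have h5 : C2 * (q : ℝ) ^ (1 / 2 + ε' : ℝ) ≤ C2 * (q : ℝ) ^ (1 - η + ε') :=
          mul_le_mul_of_nonneg_left h3 (by linarith)
        have h6 : 0 ≤ C1 * (q : ℝ) ^ (1 - η + ε') := by positivity
        linarith) ε hε
  refine ⟨C, hC, fun q hq hcase β hβ M hqM => ?_⟩
  have hcase' : η ≤ 1 / 3 ∨ (η ≤ 1 / 2 ∧ ∀ p : ℕ, p.Prime → ¬ p ^ 3 ∣ q) := by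
    by_cases h : η ≤ 1 / 3
    · exact Or.inl h
    · exact Or.inr ⟨hη2, fun p hp hd => h (hcase p hp hd)⟩
  have hq0 : (0 : ℝ) < q := by
    have : 0 < q := by omega
    exact_mod_cast this
  have hM0 : (0 : ℝ) < M := by
    have : 0 < M := by omega
    exact_mod_cast this
  set E : Finset ℕ := (range q).filter (fun a => Nat.Coprime a q ∧ ∃ N : ℕ, M ≤ N ∧ ∃ ξ : ℝ,
    (N : ℝ) ^ (1 + ε) * (q : ℝ) ^ (-η) < ‖Pool.Agent.W928.MW.sm 3 N ((a : ℝ) / q + β) ξ‖) with hE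
  refine ⟨E, ?_, ?_⟩
  · have h1 := hmain q hq β hβ M hqM (Or.inl hcase') E (by
      intro a ha
      rw [hE, Finset.mem_filter, Finset.mem_range] at ha
      exact ha)
    refine h1.trans (le_of_eq ?_)
    rw [Real.rpow_neg hM0.le]
    field_simp
  · intro a _ ha2 hcop haE N hN ξ
    by_contra hcon
    push Not at hcon
    apply haE
    rw [hE, Finset.mem_filter, Finset.mem_range]
    refine ⟨ha2, hcop, N, hN, ξ, ?_⟩
    have hN0 : (0 : ℝ) < N := by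
      have : 0 < N := by omega
      exact_mod_cast this
    have h1 : (q : ℝ) ^ (-η) ≤ (1 / (q : ℝ) + 1 / (N : ℝ) + (q : ℝ) / (N : ℝ) ^ 3) ^ η := by
      rw [Real.rpow_neg hq0.le, ← Real.inv_rpow hq0.le]
      apply Real.rpow_le_rpow (by positivity) _ hη
      rw [← one_div]
      have h2 : 0 ≤ 1 / (N : ℝ) := by positivity
      have h3 : 0 ≤ (q : ℝ) / (N : ℝ) ^ 3 := by positivity
      linarith
    have h4 : (N : ℝ) ^ (1 + ε) * (q : ℝ) ^ (-η) ≤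
        (N : ℝ) ^ (1 + ε) * (1 / (q : ℝ) + 1 / (N : ℝ) + (q : ℝ) / (N : ℝ) ^ 3) ^ η :=
      mul_le_mul_of_nonneg_left h1 (by positivity)
    exact lt_of_le_of_lt h4 hcon

end Pool.Agent.Results.MP_3b0be2_nt.CubicNumerators
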