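import Pool.Agent.K9h39.MW.E

set_option autoImplicit false

/-!
# The dimension of the exceptional set in Montgomery's conjecture on Weyl sums

For `2 ≤ J < k` and `2 ^ J η ≤ 1` the set of the real numbers `t` at which the inequality of `H_k(η)`, uniformly in all
the real polynomials `ψ` of a degree less than `J` in the place of the linear term, fails for some `ε > 0`, has a
Hausdorff dimension at most `1 - (J + 1 - 2 ^ (J + 1) η) / k`. For `η = 1/k` this is Montgomery's hypothesis; the bound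
is `3/4` for `k = 4` and for `k = 8`, and less than `1` for every `k ≥ 4` (`J = 2`: `1 - (3 - 8/k)/k`).

Proof. Iterated differencing makes `ψ` disappear and bounds the `2 ^ J`-th power of the supremum over `ψ` by a sum `W(t)`
of the `e(t m)` over the iterated differences `m` of `n ^ k`, `|m| ≤ 2 ^ J N ^ k`. The sum of `W` over a set of `R`
rational numbers with the denominator `2 ^ (J + 1) N ^ k + 1` is at most the number of the zero differences times `R`
plus, by Cauchy's inequality and Parseval's identity, `(N ^ (J + 1 + o(1)) N ^ k R) ^ (1/2)`. So at most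
`N ^ (k - (J + 1) + 2 ^ (J + 1) η)` intervals of the length `N ^ (-k)` cover the exceptional `t` at the scale `N`, if
`2 ^ J η ≤ 1`.
-/

namespace Pool.Agent.Results.MP_3b0be2_nt.ExceptionalDimension

open Finset MeasureTheory

/-- The Weyl sum with the leading coefficient `t` and the lower-order terms `ψ`. -/
noncomputable def weylSum (k N : ℕ) (t : ℝ) (ψ : Polynomial ℝ) : ℂ :=
  ∑ n ∈ Icc 1 N, Complex.exp (2 * (Real.pi : ℂ) * Complex.I * ((t * (n : ℝ) ^ k + ψ.eval (n : ℝ) : ℝ) : ℂ))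

/-- The bound `K N ^ c`, for all `N` and all `ψ` of a degree less than `J`. -/
def Flat (k J : ℕ) (c t : ℝ) : Prop :=
  ∃ K : ℝ, ∀ N : ℕ, 1 ≤ N → ∀ ψ : Polynomial ℝ, ψ.natDegree < J → ‖weylSum k N t ψ‖ ≤ K * (N : ℝ) ^ c

/-- The inequality of the hypothesis `H_k(η)`, for one `ε`, at the leading coefficient `t`, for all lower-order terms
of a degree less than `J` (`J = 2`: all linear terms). -/
def HAt (k J : ℕ) (η ε t : ℝ) : Prop :=
  ∃ K : ℝ, ∀ N : ℕ, 2 ≤ N → ∀ ψ : Polynomial ℝ, ψ.natDegree < J → ∀ a q : ℕ, 1 ≤ a → a < q → q ≤ N → Nat.Coprime a q →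
    |t - (a : ℝ) / (q : ℝ)| ≤ 1 / (q : ℝ) ^ 2 →
    ‖weylSum k N t ψ‖ ≤ K * (N : ℝ) ^ (1 + ε) * (1 / (q : ℝ) + 1 / (N : ℝ) + (q : ℝ) / (N : ℝ) ^ k) ^ η

lemma HAt_of_flat {k J : ℕ} {η ε t : ℝ} (hη : 0 ≤ η) (h : Flat k J (1 - η + ε) t) : HAt k J η ε t := by
  obtain ⟨K, hK⟩ := h
  refine ⟨|K|, fun N hN ψ hψ a q _ haq hqN _ _ => ?_⟩
  have hN0 : (0 : ℝ) < N := by exact_mod_cast (by omega : 0 < N)
  have hq0 : (0 : ℝ) < q := by exact_mod_cast (by omega : 0 < q)
  have h1 := hK N (by omega) ψ hψ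
  have h2 : (1 / (N : ℝ)) ^ η ≤ (1 / (q : ℝ) + 1 / (N : ℝ) + (q : ℝ) / (N : ℝ) ^ k) ^ η := by
    apply Real.rpow_le_rpow (by positivity) _ hη
    have h3 : 0 < 1 / (q : ℝ) := by positivity
    have h4 : 0 < (q : ℝ) / (N : ℝ) ^ k := by positivity
    linarith
  have h3 : (N : ℝ) ^ (1 - η + ε) = (N : ℝ) ^ (1 + ε) * (1 / (N : ℝ)) ^ η := by
    rw [one_div, Real.inv_rpow hN0.le, ← Real.rpow_neg hN0.le, ← Real.rpow_add hN0]
    congr 1
    ring
  calc ‖weylSum k N t ψ‖ ≤ K * (N : ℝ) ^ (1 - η + ε) := h1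
    _ ≤ |K| * (N : ℝ) ^ (1 - η + ε) := mul_le_mul_of_nonneg_right (le_abs_self K) (by positivity)
    _ = |K| * (N : ℝ) ^ (1 + ε) * (1 / (N : ℝ)) ^ η := by rw [h3]; ring
    _ ≤ _ := mul_le_mul_of_nonneg_left h2 (by positivity)

/-- **The dimension of the exceptional set.** Let `2 ≤ J < k`, `η ≥ 0` and `2 ^ J (η - ε) ≤ 1`. The real numbers `t` for
which, for some `ε' > ε`, the Weyl sums are not `O(N ^ (1 - η + ε'))` uniformly in the lower-order terms of a degree less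
than `J`, form a set of a Hausdorff dimension at most `1 - (J + 1 - 2 ^ (J + 1) (η - ε)) / k`; so do the `t` at which the
inequality of `H_k(η)` with these lower-order terms fails for some `ε' > ε`. -/
theorem result (k J : ℕ) (hJ : 2 ≤ J) (hJk : J < k) (η ε : ℝ) (hη : 0 ≤ η) (h : 2 ^ J * (η - ε) ≤ 1) :
    dimH {t : ℝ | ∃ ε' > ε, ¬ Flat k J (1 - η + ε') t} ≤
      ENNReal.ofReal (1 - (J + 1 - 2 ^ (J + 1) * (η - ε)) / k) ∧
    dimH {t : ℝ | ∃ ε' > ε, ¬ HAt k J η ε' t} ≤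
      ENNReal.ofReal (1 - (J + 1 - 2 ^ (J + 1) * (η - ε)) / k) := by
  have h1 : dimH {t : ℝ | ∃ ε' > ε, ¬ Flat k J (1 - η + ε') t} ≤
      ENNReal.ofReal (1 - (J + 1 - 2 ^ (J + 1) * (η - ε)) / k) := by
    refine (dimH_mono ?_).trans (Pool.Agent.K9h39.MW.dim_main k J hJ hJk (η - ε) h)
    rintro t ⟨ε', hε', ht⟩
    exact ⟨1 - η + ε', by linarith, ht⟩
  refine ⟨h1, (dimH_mono ?_).trans h1⟩
  rintro t ⟨ε', hε', ht⟩
  exact ⟨ε', hε', fun hF => ht (HAt_of_flat hη hF)⟩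

end Pool.Agent.Results.MP_3b0be2_nt.ExceptionalDimension
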