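import Pool.Agent.K9h98.FD.C

set_option autoImplicit false

/-!
# Montgomery's bound for Weyl sums at almost all points, for every measure with a Fourier decay

Let `μ` be a finite Borel measure on `ℝ` with `|∫ e(m t) dμ(t)| ≤ C m ^ (-β)` for all integers `m ≥ 1`. For `μ`-almost
every `t` the bound `|∑_{n ≤ N} w(n) e(t n ^ k + ξ n)| ≤ K N ^ (1 - η + ε)` holds for all `N`, ALL real `ξ`, all
`k ≥ 3`, `ε > 0` and `0 ≤ η ≤ min(1/4, k β / 4)`; here `|w(n)| ≤ 1` are fixed weights (`w = 1` in the problem). So, for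
`k ≥ 4`, the set of the `t` at which Montgomery's bound `H_k(1/k)` fails is a null set for every measure with
`β ≥ 4 / k ^ 2`: its Fourier dimension is at most `8 / k ^ 2`.

Proof. The fourth power of the supremum over `ξ` is at most `(2N+1) Q(t)`, where `∫ Q dμ` is at most the sum of
`|∫ e(D t) dμ(t)|` over the `D = z₁^k + z₂^k - w₁^k - w₂^k` with `z₁ + z₂ = w₁ + w₂`, and
`|D| ≥ |z₁ - w₁| |z₁ - w₂| z₁ ^ (k - 2)`; so `∫ Q dμ = O(N ^ (3 - 4 η))`. Then the Chebyshev inequality and the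
Borel–Cantelli lemma at the scales `N = 2 ^ i`, and a maximal inequality for the incomplete sums.
-/

namespace Pool.Agent.Results.MP_3b0be2_nt.FourierDecay

open Finset MeasureTheory

/-- The Weyl sum with the weights `w`. -/
noncomputable def weylSum (w : ℕ → ℂ) (k N : ℕ) (t ξ : ℝ) : ℂ :=
  ∑ n ∈ Icc 1 N, w n * Complex.exp (2 * (Real.pi : ℂ) * Complex.I * ((t * (n : ℝ) ^ k + ξ * (n : ℝ) : ℝ) : ℂ))

/-- The bound `K N ^ c`, for all `N` and `ξ`. -/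
def Flat (w : ℕ → ℂ) (k : ℕ) (c t : ℝ) : Prop :=
  ∃ K : ℝ, ∀ N : ℕ, 1 ≤ N → ∀ ξ : ℝ, ‖weylSum w k N t ξ‖ ≤ K * (N : ℝ) ^ c

/-- The inequality of the hypothesis `H_k(η)`, for one `ε`, at the leading coefficient `t`. -/
def HAt (w : ℕ → ℂ) (k : ℕ) (η ε t : ℝ) : Prop :=
  ∃ K : ℝ, ∀ N : ℕ, 2 ≤ N → ∀ (ξ : ℝ) (a q : ℕ), 1 ≤ a → a < q → q ≤ N → Nat.Coprime a q →
    |t - (a : ℝ) / (q : ℝ)| ≤ 1 / (q : ℝ) ^ 2 →
    ‖weylSum w k N t ξ‖ ≤ K * (N : ℝ) ^ (1 + ε) * (1 / (q : ℝ) + 1 / (N : ℝ) + (q : ℝ) / (N : ℝ) ^ k) ^ η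

lemma HAt_of_flat {w : ℕ → ℂ} {k : ℕ} {η ε t : ℝ} (hη : 0 ≤ η) (h : Flat w k (1 - η + ε) t) : HAt w k η ε t := by
  obtain ⟨K, hK⟩ := h
  refine ⟨|K|, fun N hN ξ a q _ haq hqN _ _ => ?_⟩
  have hN0 : (0 : ℝ) < N := by exact_mod_cast (by omega : 0 < N)
  have hq0 : (0 : ℝ) < q := by exact_mod_cast (by omega : 0 < q)
  have h1 := hK N (by omega) ξ
  have h2 : (1 / (N : ℝ)) ^ η ≤ (1 / (q : ℝ) + 1 / (N : ℝ) + (q : ℝ) / (N : ℝ) ^ k) ^ η := by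
    apply Real.rpow_le_rpow (by positivity) _ hη
    have h3 : 0 < 1 / (q : ℝ) := by positivity
    have h4 : 0 < (q : ℝ) / (N : ℝ) ^ k := by positivity
    linarith
  have h3 : (N : ℝ) ^ (1 - η + ε) = (N : ℝ) ^ (1 + ε) * (1 / (N : ℝ)) ^ η := by
    rw [one_div, Real.inv_rpow hN0.le, ← Real.rpow_neg hN0.le, ← Real.rpow_add hN0]
    congr 1
    ring
  calc ‖weylSum w k N t ξ‖ ≤ K * (N : ℝ) ^ (1 - η + ε) := h1
    _ ≤ |K| * (N : ℝ) ^ (1 - η + ε) := mul_le_mul_of_nonneg_right (le_abs_self K) (by positivity)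
    _ = |K| * (N : ℝ) ^ (1 + ε) * (1 / (N : ℝ)) ^ η := by rw [h3]; ring
    _ ≤ _ := mul_le_mul_of_nonneg_left h2 (by positivity)

lemma Flat_mono {w : ℕ → ℂ} {k : ℕ} {c c' t : ℝ} (h : c ≤ c') (hH : Flat w k c t) : Flat w k c' t := by
  obtain ⟨K, hK⟩ := hH
  refine ⟨|K|, fun N hN ξ => (hK N hN ξ).trans ?_⟩
  have hN1 : (1 : ℝ) ≤ N := by exact_mod_cast hN
  exact mul_le_mul (le_abs_self K) (Real.rpow_le_rpow_of_exponent_le hN1 h) (by positivity) (abs_nonneg K)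

/-- Let `μ` be a finite Borel measure on `ℝ` with `|∫ e(m t) dμ(t)| ≤ C m ^ (-β)` for all integers `m ≥ 1`, and `w` a
sequence of weights, `|w(n)| ≤ 1`. For `μ`-almost every `t`, for all `k ≥ 3`, `0 ≤ η ≤ min(1/4, k β / 4)` and `ε > 0`:
the weighted Weyl sums are at most `K N ^ (1 - η + ε)` for all `N` and `ξ`, and the inequality of `H_k(η)` holds at
`t`. -/
theorem result (μ : Measure ℝ) [IsFiniteMeasure μ] (C β : ℝ) (hβ : 0 < β)
    (hμ : ∀ m : ℕ, 1 ≤ m →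
      ‖∫ t : ℝ, Complex.exp (2 * (Real.pi : ℂ) * Complex.I * (((m : ℝ) * t : ℝ) : ℂ)) ∂μ‖ ≤ C * (m : ℝ) ^ (-β))
    (w : ℕ → ℂ) (hw : ∀ n, ‖w n‖ ≤ 1) :
    ∀ᵐ t ∂μ, ∀ k : ℕ, 3 ≤ k → ∀ η : ℝ, 0 ≤ η → η ≤ 1 / 4 → 4 * η ≤ k * β → ∀ ε : ℝ, 0 < ε →
      Flat w k (1 - η + ε) t ∧ HAt w k η ε t := by
  have hdec : Pool.Agent.K9h98.FD.Dec μ C β := hμ
  have h1 : ∀ᵐ t ∂μ, ∀ k : ℕ, 3 ≤ k → ∀ n : ℕ, Flat w k (1 - min (1 / 4) (k * β / 4) + 1 / ((n : ℝ) + 1)) t := by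
    rw [ae_all_iff]
    intro k
    by_cases hk : 3 ≤ k
    · have h2 : ∀ᵐ t ∂μ, ∀ n : ℕ, Flat w k (1 - min (1 / 4) (k * β / 4) + 1 / ((n : ℝ) + 1)) t := by
        rw [ae_all_iff]
        intro n
        have h3 := Pool.Agent.K9h98.FD.ae_flat μ C β (min (1 / 4) (k * β / 4)) hdec w hw k hk
          (le_min (by norm_num) (by positivity)) (min_le_left _ _)
          (by
            have := min_le_right (1 / 4 : ℝ) (k * β / 4)
            linarith) (1 / ((n : ℝ) + 1)) (by positivity)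
        filter_upwards [h3] with t ht
        exact ht
      filter_upwards [h2] with t ht _
      exact ht
    · exact Filter.Eventually.of_forall fun t h => absurd h hk
  filter_upwards [h1] with t ht k hk η hη hη4 hηβ ε hε
  obtain ⟨n, hn⟩ := exists_nat_one_div_lt hε
  have h2 : Flat w k (1 - η + ε) t := by
    refine Flat_mono ?_ (ht k hk n)
    have h3 : η ≤ min (1 / 4) (k * β / 4) := le_min hη4 (by linarith)
    linarith
  exact ⟨h2, HAt_of_flat hη h2⟩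

end Pool.Agent.Results.MP_3b0be2_nt.FourierDecay
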