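import Pool.Agent.K9h59.WY.E

set_option autoImplicit false

/-!
# Montgomery's bound for Weyl sums at almost all leading coefficients with missing digits

Let `C ⊆ [0, 1]` be the set of the real numbers with an expansion in base `g` all of whose digits belong to `D`; it has
dimension `s = log |D| / log g`. Suppose that `D` consists of `T` blocks of consecutive digits and that
`|D| ≥ (11 + 2 log g) g ^ (1 - κ) T`. For `2 ≤ J < k`, `0 ≤ η ≤ 1` and `ε > 0` the set of the `t ∈ C` for which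

`|∑_{n ≤ N} e(t n ^ k + ξ n)| ≤ K N ^ (1 - η + ε)` for all `N` and ALL real `ξ`

fails for every constant `K` has a dimension at most `s - (min(1, J + 1 - k κ) - 2 ^ J (η - ε)) / k`. So Montgomery's
bound `H_k(1/k)` holds, for all `ε > 0`, all `ξ`, `N`, `a/q`, at almost all `t ∈ C` for the Hausdorff measure of
dimension `s`, if `2 ^ J / k ≤ min(1, J + 1 - k κ)` for some `J`.

Proof. Iterated differencing makes the linear term disappear and gives a bound for the `2 ^ J`-th power of the supremum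
over `ξ` by a sum of the `e(t m)` over the iterated differences `m` of `n ^ k` (library `TH181.MW`). Its mean over the
integers with restricted digits is a sum of the Fourier coefficients of the Cantor measure of `C`, each with a
multiplicity `O(N ^ ε)`, and their absolute values have the mean sum `O(N ^ (k κ))` (`K9h59/CF/Ker`, `K9h59/WY`).
-/

namespace Pool.Agent.Results.MP_3b0be2_nt.MissingDigits

open Finset MeasureTheory

/-- The real numbers with an expansion in base `g` with all digits in `D`. -/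
def digitSet (g : ℕ) (D : Finset ℕ) : Set ℝ :=
  {t : ℝ | ∃ d : ℕ → ℕ, (∀ i, d i ∈ D) ∧ HasSum (fun i => (d i : ℝ) / (g : ℝ) ^ (i + 1)) t}

/-- The number of the blocks of consecutive elements of `D`. -/
def blocks (D : Finset ℕ) : ℕ := (D.filter (fun x => x + 1 ∉ D)).card

/-- The Weyl sum. -/
noncomputable def weylSum (k N : ℕ) (t ξ : ℝ) : ℂ :=
  ∑ n ∈ Icc 1 N, Complex.exp (2 * (Real.pi : ℂ) * Complex.I * ((t * (n : ℝ) ^ k + ξ * (n : ℝ) : ℝ) : ℂ))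

/-- The bound `K N ^ c`, for all `N` and `ξ`. -/
def Flat (k : ℕ) (c t : ℝ) : Prop := ∃ K : ℝ, ∀ N : ℕ, 1 ≤ N → ∀ ξ : ℝ, ‖weylSum k N t ξ‖ ≤ K * (N : ℝ) ^ c

/-- The inequality of the hypothesis `H_k(η)`, for one `ε`, at the leading coefficient `t`. -/
def HAt (k : ℕ) (η ε t : ℝ) : Prop :=
  ∃ K : ℝ, ∀ N : ℕ, 2 ≤ N → ∀ (ξ : ℝ) (a q : ℕ), 1 ≤ a → a < q → q ≤ N → Nat.Coprime a q →
    |t - (a : ℝ) / (q : ℝ)| ≤ 1 / (q : ℝ) ^ 2 →
    ‖weylSum k N t ξ‖ ≤ K * (N : ℝ) ^ (1 + ε) * (1 / (q : ℝ) + 1 / (N : ℝ) + (q : ℝ) / (N : ℝ) ^ k) ^ η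

/-- `s = log |D| / log g` -/
noncomputable def dimD (g : ℕ) (D : Finset ℕ) : ℝ := Real.log D.card / Real.log g

/-- the bound for the dimension of the exceptional set -/
noncomputable def bound (g : ℕ) (D : Finset ℕ) (κ : ℝ) (k J : ℕ) (η ε : ℝ) : ℝ :=
  dimD g D - (min 1 (J + 1 - k * κ) - 2 ^ J * (η - ε)) / k

lemma HAt_of_flat {k : ℕ} {η ε t : ℝ} (hη : 0 ≤ η) (h : Flat k (1 - η + ε) t) : HAt k η ε t := by
  obtain ⟨K, hK⟩ := h
  refine ⟨|K|, fun N hN ξ a q _ haq hqN _ _ => ?_⟩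
  have hN0 : (0 : ℝ) < N := by exact_mod_cast (by omega : 0 < N)
  have hq0 : (0 : ℝ) < q := by exact_mod_cast (by omega : 0 < q)
  have h1 := hK N (by omega) ξ
  have h2 : (1 / (N : ℝ)) ^ η ≤ (1 / (q : ℝ) + 1 / (N : ℝ) + (q : ℝ) / (N : ℝ) ^ k) ^ η := by
    apply Real.rpow_le_rpow (by positivity) _ hη
    have h3 : 0 < 1 / (q : ℝ) := by positivity
    have h4 : 0 < (q : ℝ) / (N : ℝ) ^ k := by positivity
    linarith
  have h3 : (N : ℝ) ^ (1 - η + ε) = (N : ℝ) ^ (1 + ε) * (1 / (N : ℝ)) ^ η := by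
    rw [one_div, Real.inv_rpow hN0.le, ← Real.rpow_neg hN0.le, ← Real.rpow_add hN0]
    congr 1
    ring
  calc ‖weylSum k N t ξ‖ ≤ K * (N : ℝ) ^ (1 - η + ε) := h1
    _ ≤ |K| * (N : ℝ) ^ (1 - η + ε) := mul_le_mul_of_nonneg_right (le_abs_self K) (by positivity)
    _ = |K| * (N : ℝ) ^ (1 + ε) * (1 / (N : ℝ)) ^ η := by rw [h3]; ring
    _ ≤ _ := mul_le_mul_of_nonneg_left h2 (by positivity)

lemma HAt_mono {k : ℕ} {η ε ε' t : ℝ} (h : ε ≤ ε') (hH : HAt k η ε t) : HAt k η ε' t := by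
  obtain ⟨K, hK⟩ := hH
  refine ⟨|K|, fun N hN ξ a q h1 haq hqN h2 h3 => ?_⟩
  have hN1 : (1 : ℝ) ≤ N := by exact_mod_cast (by omega : 1 ≤ N)
  have hq0 : (0 : ℝ) < q := by exact_mod_cast (by omega : 0 < q)
  have h4 := hK N hN ξ a q h1 haq hqN h2 h3
  have h5 : (N : ℝ) ^ (1 + ε) ≤ (N : ℝ) ^ (1 + ε') := Real.rpow_le_rpow_of_exponent_le hN1 (by linarith)
  have h6 : 0 ≤ (1 / (q : ℝ) + 1 / (N : ℝ) + (q : ℝ) / (N : ℝ) ^ k) ^ η := by positivity
  calc ‖weylSum k N t ξ‖ ≤ K * (N : ℝ) ^ (1 + ε) * (1 / (q : ℝ) + 1 / (N : ℝ) + (q : ℝ) / (N : ℝ) ^ k) ^ η := h4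
    _ ≤ |K| * (N : ℝ) ^ (1 + ε') * (1 / (q : ℝ) + 1 / (N : ℝ) + (q : ℝ) / (N : ℝ) ^ k) ^ η := by
        apply mul_le_mul_of_nonneg_right _ h6
        exact mul_le_mul (le_abs_self K) h5 (by positivity) (abs_nonneg K)

theorem result (g : ℕ) (hg : 3 ≤ g) (D : Finset ℕ) (hD : D ⊆ range g) (hne : D.Nonempty) (κ : ℝ) (hκ : 0 ≤ κ)
    (hdig : (11 + 2 * Real.log g) * (g : ℝ) ^ (1 - κ) * blocks D ≤ D.card) (k J : ℕ) (hJ : 2 ≤ J) (hJk : J < k)
    (η : ℝ) (hη : 0 ≤ η) (hη1 : η ≤ 1) :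
    (∀ ε : ℝ, 0 < ε →
      dimH {t : ℝ | t ∈ digitSet g D ∧ ¬ Flat k (1 - η + ε) t} ≤ ENNReal.ofReal (bound g D κ k J η ε) ∧
      dimH {t : ℝ | t ∈ digitSet g D ∧ ¬ HAt k η ε t} ≤ ENNReal.ofReal (bound g D κ k J η ε)) ∧
    (0 < η → 2 ^ J * η ≤ min 1 (J + 1 - k * κ) →
      μH[dimD g D] {t : ℝ | t ∈ digitSet g D ∧ ¬ ∀ ε : ℝ, 0 < ε → HAt k η ε t} = 0) := by
  have hg0 : (0 : ℝ) < g := by exact_mod_cast (by omega : 0 < g)
  have hg1 : (1 : ℝ) < g := by exact_mod_cast (by omega : 1 < g)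
  have hlog : 0 < Real.log g := Real.log_pos hg1
  have hk0 : (0 : ℝ) < k := by exact_mod_cast (by omega : 0 < k)
  have hDg : ∀ m, Pool.Agent.K9h59.CF.Dg g m κ (fun _ => D) := by
    intro m
    refine ⟨hg, fun _ _ => hD, fun _ _ => hne, hκ, fun _ _ => ?_⟩
    have hbr : Pool.Agent.K9h59.CF.br D = blocks D := rfl
    rw [hbr]
    have h1 : (g : ℝ) ^ (1 - κ) * (g : ℝ) ^ κ = g := by
      rw [← Real.rpow_add hg0]
      simp
    calc (blocks D : ℝ) * (g * (11 + 2 * Real.log g))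
        = ((11 + 2 * Real.log g) * (g : ℝ) ^ (1 - κ) * blocks D) * (g : ℝ) ^ κ := by
          rw [← h1]
          rw [h1]
          calc (blocks D : ℝ) * (g * (11 + 2 * Real.log g)) = (11 + 2 * Real.log g) * blocks D * g := by ring
            _ = (11 + 2 * Real.log g) * blocks D * ((g : ℝ) ^ (1 - κ) * (g : ℝ) ^ κ) := by rw [h1]
            _ = _ := by ring
      _ ≤ D.card * (g : ℝ) ^ κ := mul_le_mul_of_nonneg_right hdig (by positivity)
  obtain ⟨j, hj⟩ : ∃ j : ℕ, J = j + 1 := ⟨J - 1, by omega⟩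
  have hbd : ∀ ε : ℝ, (Pool.Agent.K9h59.WY.ex g D κ k j - 2 ^ (j + 1) * (1 - η + ε)) / k = bound g D κ k J η ε := by
    intro ε
    unfold Pool.Agent.K9h59.WY.ex bound dimD
    have h1 : ((2 ^ (j + 1) - (j + 1) - 1 : ℕ) : ℝ) = 2 ^ (j + 1) - (j + 1) - 1 := by
      have h2 : j + 2 ≤ 2 ^ (j + 1) := by
        have := Pool.Agent.TH181.MW.two_pow_ge (j + 1)
        omega
      rw [Nat.sub_sub, Nat.cast_sub (by omega)]
      push_cast
      ring
    have h2 : max ((j + 1 : ℕ) : ℝ) (k * κ) = (j + 2) - min 1 ((j + 1 : ℕ) + 1 - k * κ) := by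
      push_cast
      rcases le_total (k * κ) (j + 1) with h | h
      · rw [max_eq_left h, min_eq_left (by linarith)]
        ring
      · rw [max_eq_right h, min_eq_right (by linarith)]
        ring
    rw [h1, h2, hj]
    field_simp
    push_cast
    ring
  have hflat : ∀ ε : ℝ, 0 < ε →
      dimH {t : ℝ | t ∈ digitSet g D ∧ ¬ Flat k (1 - η + ε) t} ≤ ENNReal.ofReal (bound g D κ k J η ε) := by
    intro ε hε
    have h1 := Pool.Agent.K9h59.WY.dim_flat g D κ k j (by omega) (by omega) hDg (1 - η + ε) (by linarith)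
    rw [hbd ε] at h1
    exact h1
  have hH : ∀ ε : ℝ, 0 < ε →
      dimH {t : ℝ | t ∈ digitSet g D ∧ ¬ HAt k η ε t} ≤ ENNReal.ofReal (bound g D κ k J η ε) := by
    intro ε hε
    refine (dimH_mono ?_).trans (hflat ε hε)
    rintro t ⟨ht1, ht2⟩
    exact ⟨ht1, fun h => ht2 (HAt_of_flat hη h)⟩
  refine ⟨fun ε hε => ⟨hflat ε hε, hH ε hε⟩, fun hη0 hcond => ?_⟩
  -- `s > 0`
  have hJ0 : (0 : ℝ) < 2 ^ J := by positivity
  have hmin : 0 < min 1 ((J : ℝ) + 1 - k * κ) := lt_of_lt_of_le (by positivity) hcond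
  have hκ1 : κ < 1 := by
    have h1 : 0 < (J : ℝ) + 1 - k * κ := lt_of_lt_of_le hmin (min_le_right _ _)
    have h2 : (J : ℝ) + 1 ≤ k := by exact_mod_cast hJk
    by_contra hcon
    push Not at hcon
    nlinarith
  have hb1 : (1 : ℝ) ≤ blocks D := by
    have : 1 ≤ blocks D := Pool.Agent.K9h59.CF.br_pos hne
    exact_mod_cast this
  have hD1 : (1 : ℝ) < D.card := by
    have h1 : (1 : ℝ) ≤ (g : ℝ) ^ (1 - κ) := Real.one_le_rpow hg1.le (by linarith)
    have h2 : (11 : ℝ) * 1 * 1 ≤ (11 + 2 * Real.log g) * (g : ℝ) ^ (1 - κ) * blocks D := by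
      have h3 : (11 : ℝ) ≤ 11 + 2 * Real.log g := by linarith
      gcongr
    linarith
  have hs0 : 0 < dimD g D := div_pos (Real.log_pos hD1) hlog
  -- the union over `ε`
  have hsub : {t : ℝ | t ∈ digitSet g D ∧ ¬ ∀ ε : ℝ, 0 < ε → HAt k η ε t} ⊆
      ⋃ n : ℕ, {t : ℝ | t ∈ digitSet g D ∧ ¬ HAt k η (1 / ((n : ℝ) + 1)) t} := by
    rintro t ⟨ht1, ht2⟩
    push Not at ht2
    obtain ⟨ε, hε, ht2⟩ := ht2
    obtain ⟨n, hn⟩ := exists_nat_one_div_lt hε
    exact Set.mem_iUnion.2 ⟨n, ht1, fun h => ht2 (HAt_mono hn.le h)⟩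
  refine measure_mono_null hsub (measure_iUnion_null fun n => ?_)
  have hn : (0 : ℝ) < 1 / ((n : ℝ) + 1) := by positivity
  have h1 := hH (1 / ((n : ℝ) + 1)) hn
  have h2 : bound g D κ k J η (1 / ((n : ℝ) + 1)) < dimD g D := by
    unfold bound
    have h3 : 0 < (min 1 ((J : ℝ) + 1 - k * κ) - 2 ^ J * (η - 1 / ((n : ℝ) + 1))) / k := by
      apply div_pos _ hk0
      have : 0 < 2 ^ J * (1 / ((n : ℝ) + 1)) := by positivity
      linarith
    linarith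
  have h3 : dimH {t : ℝ | t ∈ digitSet g D ∧ ¬ HAt k η (1 / ((n : ℝ) + 1)) t} < ((dimD g D).toNNReal : ENNReal) := by
    refine lt_of_le_of_lt h1 ?_
    exact (ENNReal.ofReal_lt_ofReal_iff hs0).2 h2
  have h4 := hausdorffMeasure_of_dimH_lt h3
  rwa [Real.coe_toNNReal _ hs0.le] at h4

end Pool.Agent.Results.MP_3b0be2_nt.MissingDigits
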